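import Pool.Agent.helper37.NG.Spec

set_option autoImplicit false

namespace Pool.Agent.helper37.NG

open Finset Pool.Agent.NK Pool.Agent.helper37.NF

/-- the polynomial inequality behind `PO3` -/
theorem PO3_poly (v u : ℝ) (hv : 0 ≤ v) (hu : 0 ≤ u) (hut : u ≤ 11 + v) :
    20 * (11 + v - 1) * (2 * (11 + v) - 1) * (2 * (11 + v) - 3) *
        ((3 * (11 + v) + u) * (3 * (11 + v) + u - 1)) ≤
      9 * (11 + v + u + 1) * ((3 * (11 + v) - 5) * (3 * (11 + v) - 4) * (3 * (11 + v) - 2) *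
        (3 * (11 + v) - 1)) := by
  have ht : (0 : ℝ) < 11 + v := by linarith
  have h0 : 0 ≤ 9 * (11 + v + 1) * ((3 * (11 + v) - 5) * (3 * (11 + v) - 4) *
        (3 * (11 + v) - 2) * (3 * (11 + v) - 1)) -
      20 * (11 + v - 1) * (2 * (11 + v) - 1) * (2 * (11 + v) - 3) *
        ((3 * (11 + v)) * (3 * (11 + v) - 1)) := by
    ring_nf
    positivity
  have h1 : 0 ≤ 9 * (11 + v + (11 + v) + 1) * ((3 * (11 + v) - 5) * (3 * (11 + v) - 4) *
        (3 * (11 + v) - 2) * (3 * (11 + v) - 1)) -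
      20 * (11 + v - 1) * (2 * (11 + v) - 1) * (2 * (11 + v) - 3) *
        ((3 * (11 + v) + (11 + v)) * (3 * (11 + v) + (11 + v) - 1)) := by
    ring_nf
    positivity
  have h2 : 0 ≤ 20 * (11 + v - 1) * (2 * (11 + v) - 1) * (2 * (11 + v) - 3) *
      (u * (11 + v - u) * (11 + v)) := by
    have a1 : 0 ≤ 11 + v - 1 := by linarith
    have a2 : 0 ≤ 2 * (11 + v) - 1 := by linarith
    have a3 : 0 ≤ 2 * (11 + v) - 3 := by linarith
    have a4 : 0 ≤ 11 + v - u := by linarith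
    positivity
  have h3 := mul_nonneg (sub_nonneg.2 hut) h0
  have h4 := mul_nonneg hu h1
  have key : 0 ≤ (11 + v) * (9 * (11 + v + u + 1) * ((3 * (11 + v) - 5) * (3 * (11 + v) - 4) *
        (3 * (11 + v) - 2) * (3 * (11 + v) - 1)) -
      20 * (11 + v - 1) * (2 * (11 + v) - 1) * (2 * (11 + v) - 3) *
        ((3 * (11 + v) + u) * (3 * (11 + v) + u - 1))) := by
    have := add_nonneg (add_nonneg h3 h4) h2
    refine this.trans (le_of_eq ?_)
    ring
  have := nonneg_of_mul_nonneg_right key ht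
  linarith

theorem PO3 : PO3_stmt := by
  intro t n ht h3 h4
  obtain ⟨v, rfl⟩ : ∃ v : ℕ, t = 11 + v := ⟨t - 11, by omega⟩
  obtain ⟨u, rfl⟩ : ∃ u : ℕ, n = 3 * (11 + v) + u := ⟨n - 3 * (11 + v), by omega⟩
  have hu : u ≤ 11 + v := by omega
  have hv0 : (0 : ℝ) ≤ (v : ℝ) := Nat.cast_nonneg v
  have hu0 : (0 : ℝ) ≤ (u : ℝ) := Nat.cast_nonneg u
  have huR : (u : ℝ) ≤ 11 + (v : ℝ) := by exact_mod_cast hu
  have key := PO3_poly (v : ℝ) (u : ℝ) hv0 hu0 huR
  push_cast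
  unfold g3
  set T : ℝ := 11 + (v : ℝ) with hT
  have hTpos : 0 < T := by rw [hT]; linarith
  have b1 : 0 < 3 * T - 5 := by rw [hT]; linarith
  have b2 : 0 < 3 * T - 4 := by rw [hT]; linarith
  have b3 : 0 < 3 * T - 2 := by rw [hT]; linarith
  have b4 : 0 < 3 * T - 1 := by rw [hT]; linarith
  have hden : 0 < 3 * (3 * T - 5) * (3 * T - 4) * (3 * T - 2) * (3 * T - 1) := by positivity
  rw [div_mul_eq_mul_div, div_le_iff₀ hden]
  have := mul_le_mul_of_nonneg_left key hTpos.le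
  nlinarith [this]

end Pool.Agent.helper37.NG
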